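import Pool.Agent.Helper20.ZT.Defs

/-! # Counting the good classes modulo `p ^ 2` (Schwartz-Zippel) -/

namespace Pool.Agent.Helper53.ZT
open Finset MvPolynomial Pool.Agent.Helper11.ZP Pool.Agent.Helper20.ZT

/-- `u ^ (p - 1) - 1` is divisible by `p` -/
theorem fq_spec {p : ℕ} (hp : p.Prime) {u : ℤ} (hu : ¬ (p : ℤ) ∣ u) :
    (p : ℤ) * fq p u = u ^ (p - 1) - 1 := by
  have h : (p : ℤ) ∣ u ^ (p - 1) - 1 := by
    have := Fact.mk hp
    rw [← ZMod.intCast_zmod_eq_zero_iff_dvd]
    push_cast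
    rw [ZMod.pow_card_sub_one_eq_one, sub_self]
    intro h0
    exact hu ((ZMod.intCast_zmod_eq_zero_iff_dvd _ _).1 h0)
  unfold fq
  exact Int.mul_ediv_cancel' h

/-- the class of `u` modulo `p ^ 2` is determined by the residues of `u` and of `u` times its
Fermat quotient -/
theorem dvd_sub_of_fq {p : ℕ} (hp : p.Prime) {u v : ℤ} (hu : ¬ (p : ℤ) ∣ u)
    (hv : ¬ (p : ℤ) ∣ v) (h1 : (p : ℤ) ∣ u - v) (h2 : (p : ℤ) ∣ u * fq p u - v * fq p v) :
    (p : ℤ) ^ 2 ∣ u - v := by
  have hp' : Prime (p : ℤ) := Nat.prime_iff_prime_int.1 hp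
  have hp0 : (p : ℤ) ≠ 0 := hp'.ne_zero
  -- `fq u = fq v` modulo `p`
  have h3 : (p : ℤ) ∣ fq p u - fq p v := by
    have : (p : ℤ) ∣ u * (fq p u - fq p v) := by
      have e : u * (fq p u - fq p v) = (u * fq p u - v * fq p v) - (u - v) * fq p v := by ring
      rw [e]
      exact dvd_sub h2 (Dvd.dvd.mul_right h1 _)
    exact (hp'.dvd_or_dvd this).resolve_left hu
  have h4 : (p : ℤ) ^ 2 ∣ u ^ (p - 1) - v ^ (p - 1) := by
    have e : u ^ (p - 1) - v ^ (p - 1) = p * (fq p u - fq p v) := by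
      rw [mul_sub, fq_spec hp hu, fq_spec hp hv]; ring
    rw [e, pow_two]
    exact mul_dvd_mul_left _ h3
  obtain ⟨w, hw⟩ := h1
  have hu' : u = v + p * w := by linarith
  -- binomial expansion
  have h5 : (p : ℤ) ^ 2 ∣ u ^ (p - 1) - v ^ (p - 1) - (p - 1 : ℤ) * v ^ (p - 2) * (p * w) := by
    have key : ∀ k : ℕ, (p : ℤ) ^ 2 ∣ (v + p * w) ^ (k + 1) - v ^ (k + 1)
        - ((k : ℤ) + 1) * v ^ k * (p * w) := by
      intro k
      induction k with
      | zero => simp
      | succ k ih =>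
        have e : (v + p * w) ^ (k + 1 + 1) - v ^ (k + 1 + 1)
            - (((k + 1 : ℕ) : ℤ) + 1) * v ^ (k + 1) * (p * w)
            = (v + p * w) * ((v + p * w) ^ (k + 1) - v ^ (k + 1)
              - ((k : ℤ) + 1) * v ^ k * (p * w)) +
              (p : ℤ) ^ 2 * (((k : ℤ) + 1) * v ^ k * w ^ 2) := by
          push_cast; ring
        rw [e]
        exact dvd_add (Dvd.dvd.mul_left ih _) (Dvd.intro _ rfl)
    obtain ⟨k, hk⟩ : ∃ k, p = k + 2 := ⟨p - 2, by have := hp.two_le; omega⟩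
    have := key k
    have e1 : p - 1 = k + 1 := by omega
    have e2 : p - 2 = k := by omega
    rw [e1, e2, hu']
    have e3 : ((p : ℤ) - 1) = (k : ℤ) + 1 := by
      have : (p : ℤ) = (k : ℤ) + 2 := by exact_mod_cast hk
      linarith
    rw [e3]
    exact this
  have h6 : (p : ℤ) ^ 2 ∣ (p - 1 : ℤ) * v ^ (p - 2) * (p * w) := by
    have := dvd_sub h4 h5
    simpa using this
  have h7 : (p : ℤ) ∣ (p - 1 : ℤ) * v ^ (p - 2) * w := by
    have e : (p - 1 : ℤ) * v ^ (p - 2) * (p * w) = p * ((p - 1 : ℤ) * v ^ (p - 2) * w) := by ring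
    rw [e, pow_two] at h6
    exact (mul_dvd_mul_iff_left hp0).1 h6
  have h8 : (p : ℤ) ∣ w := by
    rcases hp'.dvd_or_dvd h7 with h | h
    · exfalso
      rcases hp'.dvd_or_dvd h with h | h
      · have : (p : ℤ) ∣ 1 := by
          have := dvd_sub (dvd_refl (p : ℤ)) h
          simpa using this
        exact hp'.not_isUnit (isUnit_of_dvd_one this)
      · exact hv (hp'.dvd_of_dvd_pow h)
    · exact h
  rw [hu']
  obtain ⟨t, rfl⟩ := h8
  exact ⟨t, by ring⟩

/-- the number of vectors of the box with the coordinate `i` divisible by `p` -/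
theorem card_dvd {n : ℕ} {p : ℕ} (hp : p.Prime) (i : Fin n) :
    ((((Fintype.piFinset fun _ : Fin n => Ico (0 : ℤ) ((p : ℤ) ^ 2)).filter
      fun u => (p : ℤ) ∣ u i).card : ℕ) : ℝ) ≤ ((p : ℝ) ^ 2) ^ n / p := by
  classical
  have hp0 : 0 < p := hp.pos
  have hsub : ((Fintype.piFinset fun _ : Fin n => Ico (0 : ℤ) ((p : ℤ) ^ 2)).filter
      fun u => (p : ℤ) ∣ u i) ⊆ Fintype.piFinset (fun j : Fin n =>
        if j = i then (Ico (0 : ℤ) p).image (fun a => p * a) else Ico (0 : ℤ) ((p : ℤ) ^ 2)) := by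
    intro u hu
    rw [mem_filter, Fintype.mem_piFinset] at hu
    rw [Fintype.mem_piFinset]
    intro j
    by_cases hj : j = i
    · subst hj
      rw [if_pos rfl, mem_image]
      obtain ⟨a, ha⟩ := hu.2
      have h := hu.1 j
      rw [mem_Ico, ha] at h
      refine ⟨a, ?_, ha.symm⟩
      rw [mem_Ico]
      have hpz : (0 : ℤ) < p := by exact_mod_cast hp0
      constructor
      · by_contra hc
        push Not at hc
        have : (p : ℤ) * a < 0 := mul_neg_of_pos_of_neg hpz hc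
        linarith [h.1]
      · have h2 := h.2
        rw [pow_two] at h2
        exact lt_of_mul_lt_mul_left h2 hpz.le
    · rw [if_neg hj]; exact hu.1 j
  have hcard := card_le_card hsub
  rw [Fintype.card_piFinset] at hcard
  have hprod : ∏ j : Fin n, (if j = i then (Ico (0 : ℤ) (p : ℤ)).image (fun a => (p : ℤ) * a) else
      Ico (0 : ℤ) ((p : ℤ) ^ 2)).card ≤ ∏ j : Fin n, (if j = i then p else p ^ 2) := by
    apply Finset.prod_le_prod'
    intro j _
    by_cases hj : j = i
    · rw [if_pos hj, if_pos hj]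
      exact card_image_le.trans (by simp)
    · rw [if_neg hj, if_neg hj]
      have : (Ico (0 : ℤ) ((p : ℤ) ^ 2)).card = p ^ 2 := by
        rw [Int.card_Ico]
        have : ((p : ℤ) ^ 2 - 0).toNat = (((p ^ 2 : ℕ) : ℤ)).toNat := by push_cast; simp
        rw [this, Int.toNat_natCast]
      exact this.le
  have h1 : ((((Fintype.piFinset fun _ : Fin n => Ico (0 : ℤ) ((p : ℤ) ^ 2)).filter
      fun u => (p : ℤ) ∣ u i).card : ℕ) : ℝ) ≤
        ((∏ j : Fin n, (if j = i then p else p ^ 2) : ℕ) : ℝ) := by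
    exact_mod_cast hcard.trans hprod
  have h2 : (∏ j : Fin n, (if j = i then p else p ^ 2)) * p = (p ^ 2) ^ n := by
    rw [← Finset.mul_prod_erase univ _ (mem_univ i), if_pos rfl]
    have : ∏ j ∈ univ.erase i, (if j = i then p else p ^ 2) = (p ^ 2) ^ (n - 1) := by
      rw [Finset.prod_congr rfl (g := fun _ => p ^ 2)]
      · rw [Finset.prod_const, card_erase_of_mem (mem_univ i), card_univ, Fintype.card_fin]
      · intro j hj
        rw [if_neg (ne_of_mem_erase hj)]
    rw [this]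
    have hn : 0 < n := Fin.pos i
    obtain ⟨k, rfl⟩ : ∃ k, n = k + 1 := ⟨n - 1, by omega⟩
    rw [Nat.add_sub_cancel, pow_succ]
    ring
  rw [le_div_iff₀ (by exact_mod_cast hp0)]
  calc _ ≤ ((∏ j : Fin n, (if j = i then p else p ^ 2) : ℕ) : ℝ) * p := by gcongr
    _ = (((∏ j : Fin n, (if j = i then p else p ^ 2)) * p : ℕ) : ℝ) := by push_cast; ring
    _ = _ := by rw [h2]; push_cast; ring
    _ ≤ _ := le_rfl

/-- Schwartz-Zippel for polynomials over a valuation subring with residues modulo `p` -/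
theorem card_zero {n : ℕ} (R : MvPolynomial (Fin n ⊕ Fin n) ℂ) (D : ℕ)
    (hD : R.totalDegree ≤ D) {p : ℕ} (hp : p.Prime) (O : ValuationSubring ℂ)
    (hpO : (p : ℂ) ∈ O.nonunits) (hR : ∀ m, R.coeff m ∈ O)
    (hR' : ∃ m, R.coeff m ∉ O.nonunits) (B : Finset (Fin n → ℤ))
    (hB : ∀ u ∈ B, (∀ i, 0 ≤ u i ∧ u i < (p : ℤ) ^ 2) ∧ (∀ i, ¬ (p : ℤ) ∣ u i) ∧
      eval (AB p u) R ∈ O.nonunits) :
    (B.card : ℝ) ≤ ((p : ℝ) ^ 2) ^ n * (D / p) := by
  classical
  -- the residue field
  let k := IsLocalRing.ResidueField O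
  let res : O →+* k := IsLocalRing.residue O
  have hres : ∀ a : O, res a = 0 ↔ (a : ℂ) ∈ O.nonunits := by
    intro a
    rw [ValuationSubring.coe_mem_nonunits_iff]
    exact IsLocalRing.residue_eq_zero_iff a
  have hpk : (p : k) = 0 := by
    have : res (p : O) = 0 := by
      rw [hres]; simpa using hpO
    simpa using this
  have hchar : CharP k p := by
    have := CharP.ringChar_of_prime_eq_zero hp hpk
    rw [← this]; exact ringChar.charP k
  -- the reduction of `R`
  obtain ⟨Q, hQ⟩ : ∃ Q : MvPolynomial (Fin n ⊕ Fin n) O, map (algebraMap O ℂ) Q = R := by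
    have : R ∈ Set.range (MvPolynomial.map (σ := Fin n ⊕ Fin n) (algebraMap O ℂ)) := by
      rw [mem_range_map_iff_coeffs_subset]
      intro x hx
      rw [mem_coe, mem_coeffs_iff] at hx
      obtain ⟨m, -, rfl⟩ := hx
      exact ⟨⟨_, hR m⟩, rfl⟩
    exact this
  set Qr : MvPolynomial (Fin n ⊕ Fin n) k := map res Q with hQr
  have hQr0 : Qr ≠ 0 := by
    obtain ⟨m, hm⟩ := hR'
    intro h0
    apply hm
    have : Qr.coeff m = 0 := by rw [h0, coeff_zero]
    rw [hQr, coeff_map, hres] at this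
    rw [← hQ, coeff_map]
    exact this
  have hQd : Qr.totalDegree ≤ D := by
    refine le_trans ?_ hD
    unfold totalDegree
    apply Finset.sup_mono
    intro m hm
    rw [mem_support_iff] at hm ⊢
    intro h
    apply hm
    rw [hQr, coeff_map, hres]
    rw [← hQ, coeff_map] at h
    have h' : ((Q.coeff m : O) : ℂ) = 0 := h
    rw [h']
    exact O.nonunits.zero_mem
  set P : MvPolynomial (Fin (n + n)) k := rename finSumFinEquiv Qr with hP
  have hP0 : P ≠ 0 := by
    rw [hP]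
    intro h
    exact hQr0 (rename_injective _ finSumFinEquiv.injective (by rw [h, map_zero]))
  have hPd : P.totalDegree ≤ D := (totalDegree_rename_le _ _).trans hQd
  let S : Finset k := (range p).image (fun a : ℕ => (a : k))
  have hS : S.card = p := by
    rw [card_image_of_injOn, card_range]
    intro a ha b hb hab
    rw [coe_range, Set.mem_Iio] at ha hb
    exact CharP.natCast_injOn_Iio k p ha hb hab
  have hSz : ∀ a : ℤ, (a : k) ∈ S := by
    intro a
    rw [mem_image]
    have hpz : (0 : ℤ) < p := by exact_mod_cast hp.pos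
    refine ⟨(a % p).toNat, ?_, ?_⟩
    · rw [mem_range]
      have := Int.emod_lt_of_pos a hpz
      have := Int.emod_nonneg a hpz.ne'
      omega
    · have h1 : (((a % p).toNat : ℤ)) = a % p := Int.toNat_of_nonneg (Int.emod_nonneg a hpz.ne')
      have h2 : (((a % p).toNat : ℕ) : k) = ((a % p : ℤ) : k) := by
        rw [← h1]; push_cast; rfl
      rw [h2]
      have h3 : ((a : ℤ) : k) = ((a % p : ℤ) : k) + (p : k) * ((a / p : ℤ) : k) := by
        have := Int.emod_add_mul_ediv a p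
        conv_lhs => rw [← this]
        rw [Int.cast_add, Int.cast_mul, Int.cast_natCast]
      rw [h3, hpk]; ring
  let F : (Fin n → ℤ) → (Fin (n + n) → k) := fun u j =>
    Sum.elim (fun i => ((Helper20.ZT.kap + u i * fq p (u i) : ℤ) : k)) (fun i => ((u i : ℤ) : k))
      (finSumFinEquiv.symm j)
  have hF : ∀ u, eval (F u) P = 0 ↔ eval (AB p u) R ∈ O.nonunits := by
    intro u
    let G : Fin n ⊕ Fin n → O := Sum.elim
      (fun i => ((Helper20.ZT.kap + u i * fq p (u i) : ℤ) : O)) (fun i => ((u i : ℤ) : O))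
    have e1 : eval (AB p u) R = ((eval G Q : O) : ℂ) := by
      have e : (AB p u : Fin n ⊕ Fin n → ℂ) = fun i => algebraMap O ℂ (G i) := by
        funext i
        rcases i with i | i
        · simp only [AB, G, Sum.elim_inl]
          rw [map_intCast]
        · simp only [AB, G, Sum.elim_inr]
          rw [map_intCast]
      rw [← hQ, eval_map, e]
      exact (MvPolynomial.eval₂_comp (algebraMap O ℂ) G Q).symm
    have e2 : eval (F u) P = res (eval G Q) := by
      rw [hP, eval_rename, hQr, eval_map]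
      have e : (F u) ∘ finSumFinEquiv = fun i => res (G i) := by
        funext i
        simp only [Function.comp_apply, F, Equiv.symm_apply_apply]
        rcases i with i | i
        · simp only [G, Sum.elim_inl]
          rw [map_intCast]
        · simp only [G, Sum.elim_inr]
          rw [map_intCast]
      rw [e]
      exact (MvPolynomial.eval₂_comp res G Q).symm
    rw [e1, e2, hres]
  have hinj : Set.InjOn F B := by
    intro u hu v hv huv
    funext i
    obtain ⟨hu1, hu2, -⟩ := hB u hu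
    obtain ⟨hv1, hv2, -⟩ := hB v hv
    have h1 : ((u i : ℤ) : k) = ((v i : ℤ) : k) := by
      have := congrFun huv (finSumFinEquiv (Sum.inr i))
      simpa only [F, Equiv.symm_apply_apply, Sum.elim_inr] using this
    have h2 : ((Helper20.ZT.kap + u i * fq p (u i) : ℤ) : k)
        = ((Helper20.ZT.kap + v i * fq p (v i) : ℤ) : k) := by
      have := congrFun huv (finSumFinEquiv (Sum.inl i))
      simpa only [F, Equiv.symm_apply_apply, Sum.elim_inl] using this
    have h3 : (p : ℤ) ∣ u i - v i := by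
      rw [← CharP.intCast_eq_zero_iff k p]
      push_cast
      rw [h1, sub_self]
    have h4 : (p : ℤ) ∣ u i * fq p (u i) - v i * fq p (v i) := by
      rw [← CharP.intCast_eq_zero_iff k p]
      push_cast at h2 ⊢
      linear_combination h2
    have h5 := dvd_sub_of_fq hp (hu2 i) (hv2 i) h3 h4
    have h6 := Int.eq_zero_of_abs_lt_dvd h5 (by
      rw [abs_lt]
      have := hu1 i
      have := hv1 i
      constructor <;> linarith)
    linarith
  have hmap : B.image F ⊆ (Fintype.piFinset fun _ : Fin (n + n) => S).filter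
      (fun f => eval f P = 0) := by
    intro f hf
    rw [mem_image] at hf
    obtain ⟨u, hu, rfl⟩ := hf
    rw [mem_filter, Fintype.mem_piFinset]
    refine ⟨fun j => ?_, (hF u).2 (hB u hu).2.2⟩
    rcases h : finSumFinEquiv.symm j with i | i
    · simp only [F, h, Sum.elim_inl]; exact hSz _
    · simp only [F, h, Sum.elim_inr]; exact hSz _
  have hsz := schwartz_zippel_totalDegree hP0 S
  rw [hS] at hsz
  have hc : B.card ≤ ((Fintype.piFinset fun _ : Fin (n + n) => S).filter
      (fun f => eval f P = 0)).card := by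
    rw [← card_image_of_injOn hinj]; exact card_le_card hmap
  have hp0 : (0 : ℝ) < p := by exact_mod_cast hp.pos
  have hsz' : (((Fintype.piFinset fun _ : Fin (n + n) => S).filter
      (fun f => eval f P = 0)).card : ℝ) / (p : ℝ) ^ (n + n) ≤ (P.totalDegree : ℝ) / p := by
    have := (NNRat.cast_le (K := ℝ)).2 hsz
    push_cast at this
    exact this
  rw [div_le_iff₀ (by positivity)] at hsz'
  calc (B.card : ℝ) ≤ (((Fintype.piFinset fun _ : Fin (n + n) => S).filter
      (fun f => eval f P = 0)).card : ℝ) := by exact_mod_cast hc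
    _ ≤ (P.totalDegree : ℝ) / p * (p : ℝ) ^ (n + n) := hsz'
    _ ≤ (D : ℝ) / p * (p : ℝ) ^ (n + n) := by
      have : (P.totalDegree : ℝ) ≤ D := by exact_mod_cast hPd
      gcongr
    _ = _ := by
      rw [← two_mul, pow_mul]; ring

/-- all but `O (1 / p)` of the classes modulo `p ^ 2` are good -/
theorem count_good {n : ℕ} {ι : Type*} [Fintype ι] (R : ι → MvPolynomial (Fin n ⊕ Fin n) ℂ) (D : ℕ)
    (hD : ∀ i, (R i).totalDegree ≤ D) {p : ℕ} (hp : p.Prime) (_hp2 : 2 < p) (O : ValuationSubring ℂ)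
    (hpO : (p : ℂ) ∈ O.nonunits) (hR : ∀ i m, (R i).coeff m ∈ O)
    (hR' : ∀ i, ∃ m, (R i).coeff m ∉ O.nonunits) :
    ((p : ℝ) ^ 2) ^ n * (1 - (n + Fintype.card ι * D) / p) ≤
      (Set.ncard {u : Fin n → ℤ | (∀ i, 0 ≤ u i ∧ u i < (p : ℤ) ^ 2) ∧ (∀ i, ¬ (p : ℤ) ∣ u i) ∧
        ∀ i, eval (AB p u) (R i) ∉ O.nonunits} : ℝ) := by
  classical
  have hp0 : (0 : ℝ) < p := by exact_mod_cast hp.pos
  set Box : Finset (Fin n → ℤ) := Fintype.piFinset fun _ : Fin n => Ico (0 : ℤ) ((p : ℤ) ^ 2)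
    with hBox
  have hmB : ∀ u, u ∈ Box ↔ ∀ i, 0 ≤ u i ∧ u i < (p : ℤ) ^ 2 := by
    intro u
    rw [hBox, Fintype.mem_piFinset]
    exact forall_congr' fun i => mem_Ico
  have hcB : (Box.card : ℝ) = ((p : ℝ) ^ 2) ^ n := by
    rw [hBox, Fintype.card_piFinset, Finset.prod_const, card_univ, Fintype.card_fin, Int.card_Ico]
    have : ((p : ℤ) ^ 2 - 0).toNat = p ^ 2 := by
      have : ((p : ℤ) ^ 2 - 0) = ((p ^ 2 : ℕ) : ℤ) := by push_cast; simp
      rw [this, Int.toNat_natCast]
    rw [this]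
    push_cast
    rfl
  let Good := Box.filter (fun u => (∀ i, ¬ (p : ℤ) ∣ u i) ∧ ∀ i, eval (AB p u) (R i) ∉ O.nonunits)
  have hG : {u : Fin n → ℤ | (∀ i, 0 ≤ u i ∧ u i < (p : ℤ) ^ 2) ∧ (∀ i, ¬ (p : ℤ) ∣ u i) ∧
        ∀ i, eval (AB p u) (R i) ∉ O.nonunits} = (Good : Set (Fin n → ℤ)) := by
    ext u
    rw [mem_coe, mem_filter, hmB]
    rfl
  rw [hG, Set.ncard_coe_finset]
  let B1 : Fin n → Finset (Fin n → ℤ) := fun i => Box.filter (fun u => (p : ℤ) ∣ u i)
  let B2 : ι → Finset (Fin n → ℤ) := fun i => Box.filter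
    (fun u => (∀ i, ¬ (p : ℤ) ∣ u i) ∧ eval (AB p u) (R i) ∈ O.nonunits)
  have hcov : Box ⊆ Good ∪ (univ.biUnion B1 ∪ univ.biUnion B2) := by
    intro u hu
    rw [mem_union, mem_union, mem_biUnion, mem_biUnion]
    by_cases h1 : ∀ i, ¬ (p : ℤ) ∣ u i
    · by_cases h2 : ∀ i, eval (AB p u) (R i) ∉ O.nonunits
      · exact Or.inl (mem_filter.2 ⟨hu, h1, h2⟩)
      · push Not at h2
        obtain ⟨i, hi⟩ := h2
        exact Or.inr (Or.inr ⟨i, mem_univ _, mem_filter.2 ⟨hu, h1, hi⟩⟩)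
    · push Not at h1
      obtain ⟨i, hi⟩ := h1
      exact Or.inr (Or.inl ⟨i, mem_univ _, mem_filter.2 ⟨hu, hi⟩⟩)
  have h1 : (Box.card : ℝ) ≤ Good.card + (∑ i, ((B1 i).card : ℝ) + ∑ i, ((B2 i).card : ℝ)) := by
    have h := (card_le_card hcov).trans ((card_union_le _ _).trans
      (Nat.add_le_add_left ((card_union_le _ _).trans
        (Nat.add_le_add card_biUnion_le card_biUnion_le)) _))
    exact_mod_cast h
  have h2 : ∑ i, ((B1 i).card : ℝ) ≤ n * (((p : ℝ) ^ 2) ^ n / p) := by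
    calc _ ≤ ∑ _i : Fin n, ((p : ℝ) ^ 2) ^ n / p := Finset.sum_le_sum fun i _ => card_dvd hp i
      _ = _ := by rw [Finset.sum_const, card_univ, Fintype.card_fin, nsmul_eq_mul]
  have h3 : ∑ i, ((B2 i).card : ℝ) ≤ Fintype.card ι * (((p : ℝ) ^ 2) ^ n * (D / p)) := by
    calc _ ≤ ∑ _i : ι, ((p : ℝ) ^ 2) ^ n * (D / p) := Finset.sum_le_sum fun i _ =>
          card_zero (R i) D (hD i) hp O hpO (hR i) (hR' i) (B2 i) (fun u hu => by
            rw [mem_filter, hmB] at hu
            exact hu)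
      _ = _ := by rw [Finset.sum_const, card_univ, nsmul_eq_mul]
  have h4 : ((p : ℝ) ^ 2) ^ n * (1 - (n + Fintype.card ι * D) / p)
      = ((p : ℝ) ^ 2) ^ n - n * (((p : ℝ) ^ 2) ^ n / p)
        - Fintype.card ι * (((p : ℝ) ^ 2) ^ n * (D / p)) := by
    ring
  rw [h4]
  rw [hcB] at h1
  linarith

end Pool.Agent.Helper53.ZT
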